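import Pool.Agent.Helper41.CS.Basic
import Pool.Agent.Helper6.CS.Comb

/-!
# Project CS: piecewise syndetic sets, Lemma 2 (one word) and the words of Cl(0)
-/

set_option autoImplicit false

namespace Pool.Agent.Helper41.CS

open Pool.Agent.Helper6.CS

set_option synthInstance.maxSize 100000

variable {M : Type} [World M]

/-- Lemma 2 for one word. -/
theorem avoid (b : M) (E : M → Wd M → Prop) [IP M fun p : M × Wd M => E p.1 p.2] (N0 : M)
    (hE : ∀ i, i < N0 → ¬ PS b (E i)) :
    ∀ p : M, ∃ q : M, ∀ y : Wd M, Over b y → ∃ g : Wd M, Over b g ∧ g.len ≤ q ∧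
      ∀ i, i < N0 → ∀ t : Wd M, Over b t → t.len ≤ p → ¬ E i (t ++ g ++ y) := by
  have key : ∀ N : M, N ≤ N0 → ∀ p : M, ∃ q : M, ∀ y : Wd M, Over b y → ∃ g : Wd M,
      Over b g ∧ g.len ≤ q ∧
      ∀ i, i < N → ∀ t : Wd M, Over b t → t.len ≤ p → ¬ E i (t ++ g ++ y) := by
    refine ind (P := fun N : M => N ≤ N0 → ∀ p : M, ∃ q : M, ∀ y : Wd M, Over b y → ∃ g : Wd M,
      Over b g ∧ g.len ≤ q ∧
      ∀ i, i < N → ∀ t : Wd M, Over b t → t.len ≤ p → ¬ E i (t ++ g ++ y)) inferInstance ?_ ?_
    · intro _ p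
      exact ⟨0, fun y _ => ⟨Wd.nil M, over_nil b, by rw [len_nil], fun i hi =>
        absurd hi (not_lt.2 (World.zero_le' i))⟩⟩
    · intro N ih hN p
      have hNN : N < N0 := lt_of_lt_of_le ((World.lt_succ _ _).2 le_rfl) hN
      obtain ⟨q1, h1⟩ := ih hNN.le p
      have h2 : ¬ PS b (E N) := hE N hNN
      unfold PS at h2
      push Not at h2
      obtain ⟨q2, h2⟩ := h2 (p + q1)
      refine ⟨q1 + q2, fun y hy => ?_⟩
      obtain ⟨g2, hg2, hl2, h3⟩ := h2 y hy
      obtain ⟨g1, hg1, hl1, h4⟩ := h1 (g2 ++ y) (over_app hg2 hy)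
      refine ⟨g1 ++ g2, over_app hg1 hg2, by rw [len_app]; gcongr, fun i hi t ht hlt => ?_⟩
      rw [World.lt_succ] at hi
      rcases hi.lt_or_eq with h5 | rfl
      · have := h4 i h5 t ht hlt
        rwa [← app_assoc, app_assoc t, ] at this
      · have := h3 (t ++ g1) (over_app ht hg1) (by rw [len_app]; gcongr)
        rwa [← app_assoc t]
  exact key N0 le_rfl

/-- The words over `b` of length at most `K` have bounded codes. -/
theorem bdd_words (b K : M) : ∃ B : M, ∀ w : Wd M, Over b w → w.len ≤ K →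
    (Cod.cd w : M) < B := by
  revert K
  refine ind (P := fun K : M => ∃ B : M, ∀ w : Wd M, Over b w → w.len ≤ K →
    (Cod.cd w : M) < B) inferInstance ?_ ?_
  · refine ⟨(Cod.cd (Wd.nil M) : M) + 1, fun w _ hw => ?_⟩
    rw [eq_nil hw]
    exact (World.lt_succ _ _).2 le_rfl
  · rintro K ⟨B, hB⟩
    -- codes of the words `dec i ++ [a]`, `i < B`, `a < b`
    obtain ⟨C, hC⟩ : ∃ C : M, ∀ i, i < B → ∀ a, a < b →
        (Cod.cd (dec i ++ Wd.sg a : Wd M) : M) < C := by
      have h1 : ∀ i : M, i < B → ∃ m : M, ∀ a, a < b →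
          (Cod.cd (dec i ++ Wd.sg a : Wd M) : M) < m := by
        intro i _
        exact bdd (fun a : M => (Cod.cd (dec i ++ Wd.sg a : Wd M) : M)) b
      obtain ⟨C, h2⟩ := coll (fun i m : M => ∀ a, a < b →
        (Cod.cd (dec i ++ Wd.sg a : Wd M) : M) < m) B h1
      refine ⟨C, fun i hi a ha => ?_⟩
      obtain ⟨m, hm, h3⟩ := h2 i hi
      exact (h3 a ha).trans hm
    refine ⟨B + C, fun w hw hl => ?_⟩
    rcases hl.lt_or_eq with h3 | h3
    · exact lt_of_lt_of_le (hB w hw ((World.lt_succ _ _).1 h3))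
        (le_add_of_nonneg_right (World.zero_le' _))
    · have hK : K < w.len := by rw [h3]; exact (World.lt_succ _ _).2 le_rfl
      have h4 : w = Wd.take K w ++ Wd.sg (w.get K) := by
        have h5 : (Wd.take K w).len = K := by
          unfold Wd.take
          rw [Wd.len_of, min_eq_left hK.le]
        refine Wd.ext' (by rw [len_app, h5, len_sg, h3]) fun i hi => ?_
        rcases lt_or_ge i K with h6 | h6
        · rw [get_app_lt (by rwa [h5])]
          unfold Wd.take
          rw [Wd.get_of_lt _ _ (by rw [min_eq_left hK.le]; exact h6)]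
        · have h7 : i = K := by
            rw [h3] at hi
            exact le_antisymm ((World.lt_succ _ _).1 hi) h6
          subst h7
          have := get_app_ge (Wd.take i w) (Wd.sg (w.get i)) 0
          rw [h5, add_zero, get_sg] at this
          exact this.symm
      have h5 : Over b (Wd.take K w) := by
        intro i hi
        unfold Wd.take at hi ⊢
        rw [Wd.len_of, min_eq_left hK.le] at hi
        rw [Wd.get_of_lt _ _ (by rw [min_eq_left hK.le]; exact hi)]
        exact hw i (hi.trans hK)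
      have h6 : (Wd.take K w).len ≤ K := by
        unfold Wd.take
        rw [Wd.len_of]
        exact min_le_left _ _
      have h7 := hC _ (hB _ h5 h6) (w.get K) (hw K hK)
      rw [dec_cd, ← h4] at h7
      exact lt_of_lt_of_le h7 (le_add_of_nonneg_left (World.zero_le' _))

end Pool.Agent.Helper41.CS
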