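import Pool.Agent.Helper6.CS.Words

/-!
# Project CS: basic lemmas on internal words
-/

set_option autoImplicit false

namespace Pool.Agent.Helper41.CS

open Pool.Agent.Helper6.CS

set_option synthInstance.maxSize 100000

variable {M : Type} [World M]

theorem sub_lt' {i s t : M} (h1 : s ≤ i) (h2 : i < s + t) : i - s < t := by
  obtain ⟨c, rfl⟩ := World.exists_add s i h1
  rw [add_tsub_cancel_left]
  exact lt_of_add_lt_add_left h2

theorem len_app (s t : Wd M) : (s ++ t).len = s.len + t.len := by
  rw [Wd.app_def, Wd.len_of]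

theorem get_app_lt {s t : Wd M} {i : M} (h : i < s.len) : (s ++ t).get i = s.get i := by
  rw [Wd.app_def, Wd.get_of_lt _ _ (lt_of_lt_of_le h (le_add_of_nonneg_right (World.zero_le' _))),
    if_pos h]

theorem get_app_ge (s t : Wd M) (i : M) : (s ++ t).get (s.len + i) = t.get i := by
  rcases lt_or_ge i t.len with h | h
  · rw [Wd.app_def, Wd.get_of_lt _ _ (by gcongr), if_neg (not_lt.2 (le_add_of_nonneg_right
      (World.zero_le' _))), add_tsub_cancel_left]
  · rw [(s ++ t).supp _ (by rw [len_app]; gcongr), t.supp _ h]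

theorem app_assoc (s t u : Wd M) : s ++ t ++ u = s ++ (t ++ u) := by
  refine Wd.ext' (by simp only [len_app, add_assoc]) fun i hi => ?_
  rcases lt_or_ge i s.len with h1 | h1
  · have h2 : i < (s ++ t).len := by
      rw [len_app]
      exact lt_of_lt_of_le h1 (le_add_of_nonneg_right (World.zero_le' _))
    rw [get_app_lt h1, get_app_lt h2, get_app_lt h1]
  · obtain ⟨j, rfl⟩ := World.exists_add _ _ h1
    rw [get_app_ge]
    rcases lt_or_ge j t.len with h2 | h2
    · rw [get_app_lt (by rw [len_app]; gcongr), get_app_ge, get_app_lt h2]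
    · obtain ⟨k, rfl⟩ := World.exists_add _ _ h2
      rw [get_app_ge, ← add_assoc, ← len_app, get_app_ge]

theorem len_nil : (Wd.nil M).len = 0 := Wd.len_of _ _

theorem eq_nil {w : Wd M} (h : w.len ≤ 0) : w = Wd.nil M := by
  have h1 : w.len = 0 := le_antisymm h (World.zero_le' _)
  refine Wd.ext' (by rw [h1, len_nil]) fun i hi => ?_
  rw [h1] at hi
  exact absurd hi (not_lt.2 (World.zero_le' i))

theorem nil_app (w : Wd M) : Wd.nil M ++ w = w := by
  refine Wd.ext' (by rw [len_app, len_nil, zero_add]) fun i hi => ?_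
  have := get_app_ge (Wd.nil M) w i
  rwa [len_nil, zero_add] at this

theorem app_nil (w : Wd M) : w ++ Wd.nil M = w := by
  refine Wd.ext' (by rw [len_app, len_nil, add_zero]) fun i hi => ?_
  rw [len_app, len_nil, add_zero] at hi
  exact get_app_lt hi

theorem len_sg (a : M) : (Wd.sg a).len = 1 := Wd.len_of _ _

theorem get_sg (a : M) : (Wd.sg a).get 0 = a := Wd.get_of_lt _ _ zero_lt_one

theorem over_nil (b : M) : Over b (Wd.nil M) := fun i hi => by
  rw [len_nil] at hi
  exact absurd hi (not_lt.2 (World.zero_le' i))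

theorem over_app {b : M} {s t : Wd M} (hs : Over b s) (ht : Over b t) : Over b (s ++ t) := by
  intro i hi
  rcases lt_or_ge i s.len with h1 | h1
  · rw [get_app_lt h1]
    exact hs i h1
  · obtain ⟨j, rfl⟩ := World.exists_add _ _ h1
    rw [get_app_ge]
    rw [len_app] at hi
    exact ht j (lt_of_add_lt_add_left hi)

theorem over_sg {a b : M} (h : a < b) : Over b (Wd.sg a) := by
  intro i hi
  rw [len_sg] at hi
  have h0 : i = 0 := le_antisymm (by
    have : i < 0 + 1 := by rwa [zero_add]
    exact (World.lt_succ _ _).1 this) (World.zero_le' i)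
  subst h0
  rwa [get_sg]

theorem Over.mono {b b' : M} {w : Wd M} (h : Over b w) (hb : b ≤ b') : Over b' w :=
  fun i hi => lt_of_lt_of_le (h i hi) hb

theorem len_sub (x c : M) (w : Wd M) : (Wd.sub x c w).len = w.len := Wd.len_of _ _

open Classical in
theorem get_sub {x c : M} {w : Wd M} {i : M} (hi : i < w.len) :
    (Wd.sub x c w).get i = if w.get i = x then c else w.get i := by
  unfold Wd.sub
  rw [Wd.get_of_lt _ _ hi]

theorem sub_app (x c : M) (s t : Wd M) :
    Wd.sub x c (s ++ t) = Wd.sub x c s ++ Wd.sub x c t := by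
  refine Wd.ext' (by simp only [len_sub, len_app]) fun i hi => ?_
  rw [len_sub] at hi
  rw [get_sub hi]
  rcases lt_or_ge i s.len with h1 | h1
  · rw [get_app_lt h1, get_app_lt (by rwa [len_sub]), get_sub h1]
  · obtain ⟨j, rfl⟩ := World.exists_add _ _ h1
    rw [len_app] at hi
    have h2 : j < t.len := lt_of_add_lt_add_left hi
    have h3 : s.len + j = (Wd.sub x c s).len + j := by rw [len_sub]
    rw [get_app_ge, h3, get_app_ge, get_sub h2]

theorem over_sub {b c : M} {w : Wd M} (h : Over (b + 1) w) (hc : c < b) :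
    Over b (Wd.sub b c w) := by
  intro i hi
  rw [len_sub] at hi
  rw [get_sub hi]
  split_ifs with h1
  · exact hc
  · exact lt_of_le_of_ne ((World.lt_succ _ _).1 (h i hi)) h1

theorem sub_eq_self {b c : M} {w : Wd M} (h : Over b w) : Wd.sub b c w = w := by
  refine Wd.ext' (len_sub _ _ _) fun i hi => ?_
  rw [len_sub] at hi
  rw [get_sub hi, if_neg (h i hi).ne]

theorem sub_sg_self (b c : M) : Wd.sub b c (Wd.sg b) = Wd.sg c := by
  refine Wd.ext' (by rw [len_sub, len_sg, len_sg]) fun i hi => ?_
  rw [len_sub] at hi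
  rw [get_sub hi]
  rw [len_sg] at hi
  have h0 : i = 0 := le_antisymm (by
    have : i < 0 + 1 := by rwa [zero_add]
    exact (World.lt_succ _ _).1 this) (World.zero_le' i)
  subst h0
  rw [get_sg, get_sg, if_pos rfl]

end Pool.Agent.Helper41.CS
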