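import Pool.Agent.Helper6.CS.Goals0

/-!
# MP_81e84b_lc, project CS, packet CODE: coding of finite sets in a world
-/

set_option autoImplicit false

namespace Pool.Agent.Helper41.CS

open Pool.Agent.Helper6.CS

variable {M : Type} [World M]

theorem exists_succ {a : M} (h : 1 ≤ a) : ∃ u, a = u + 1 := by
  obtain ⟨c, hc⟩ := World.exists_add 1 a h
  exact ⟨c, by rw [hc, add_comm]⟩

theorem one_le_mul' {a b : M} (ha : 1 ≤ a) (hb : 1 ≤ b) : 1 ≤ a * b := by
  calc (1 : M) = 1 * 1 := by ring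
    _ ≤ a * b := mul_le_mul ha hb zero_le_one (World.zero_le' a)

theorem one_le_succ (a : M) : 1 ≤ a + 1 := by
  calc (1 : M) = 0 + 1 := by ring
    _ ≤ a + 1 := by gcongr; exact World.zero_le' a

set_option synthInstance.maxSize 100000 in
theorem exists_mult (K : M) : ∃ m : M, 1 ≤ m ∧ ∀ d : M, 1 ≤ d → d ≤ K → ∃ c, m = d * c := by
  revert K
  refine ind (P := fun K : M => ∃ m : M, 1 ≤ m ∧ ∀ d : M, 1 ≤ d → d ≤ K → ∃ c, m = d * c)
    inferInstance ?_ ?_
  · refine ⟨1, le_refl _, fun d h1 h2 => ?_⟩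
    exact absurd (lt_of_lt_of_le zero_lt_one (h1.trans h2)) (lt_irrefl _)
  · rintro K ⟨m, hm, h⟩
    refine ⟨m * (K + 1), one_le_mul' hm (one_le_succ K), fun d h1 h2 => ?_⟩
    rcases h2.lt_or_eq with h3 | h3
    · rw [World.lt_succ] at h3
      obtain ⟨c, hc⟩ := h d h1 h3
      exact ⟨c * (K + 1), by rw [hc]; ring⟩
    · exact ⟨m, by rw [h3]; ring⟩

/-- `n` is invertible modulo `a` -/
def Inv (a n : M) : Prop := ∃ v u : M, v * n = u * a + 1

theorem Inv.one (a : M) : Inv a 1 := ⟨1, 0, by ring⟩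

theorem Inv.mul {a n n' : M} (h : Inv a n) (h' : Inv a n') : Inv a (n * n') := by
  obtain ⟨v, u, h⟩ := h
  obtain ⟨v', u', h'⟩ := h'
  refine ⟨v * v', u * u' * a + u + u', ?_⟩
  calc v * v' * (n * n') = (v * n) * (v' * n') := by ring
    _ = (u * a + 1) * (u' * a + 1) := by rw [h, h']
    _ = _ := by ring

theorem Inv.not_dvd {a n : M} (ha : 1 < a) (h : Inv a n) : ¬ ∃ c, n = a * c := by
  rintro ⟨c, rfl⟩
  obtain ⟨v, u, h⟩ := h
  rcases le_or_gt (v * c) u with h1 | h1
  · have h2 : a * (v * c) ≤ a * u := mul_le_mul_of_nonneg_left h1 (World.zero_le' a)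
    have h3 : u * a + 1 ≤ u * a := by
      rw [← h]
      calc v * (a * c) = a * (v * c) := by ring
        _ ≤ a * u := h2
        _ = u * a := by ring
    exact absurd h3 (not_le.2 (lt_add_of_pos_right _ zero_lt_one))
  · have h2 : u + 1 ≤ v * c := World.add_one_le h1
    have h3 : u * a + a ≤ u * a + 1 := by
      rw [← h]
      calc u * a + a = a * (u + 1) := by ring
        _ ≤ a * (v * c) := mul_le_mul_of_nonneg_left h2 (World.zero_le' a)
        _ = v * (a * c) := by ring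
    have h4 : a ≤ 1 := le_of_add_le_add_left h3
    exact absurd h4 (not_le.2 ha)

theorem one_le_cofactor {m d c : M} (hd : m = d * c) (hm : 1 ≤ m) : 1 ≤ c := by
  by_contra h
  have h1 : c < 0 + 1 := by rw [zero_add]; exact not_le.1 h
  rw [World.lt_succ] at h1
  have h2 : c = 0 := le_antisymm h1 (World.zero_le' c)
  rw [hd, h2, mul_zero] at hm
  exact absurd hm (not_le.2 zero_lt_one)

theorem inv_lt {m i d c : M} (hd : m = d * c) (hm : 1 ≤ m) :
    Inv (m * (i + 1) + 1) (m * (i + d + 1) + 1) := by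
  have hc : 1 ≤ c := one_le_cofactor hd hm
  obtain ⟨u, hu⟩ := exists_succ (one_le_mul' (one_le_mul' hc (one_le_succ i)) (one_le_succ (i + d)))
  refine ⟨c * (i + 1) * (i + 1), u, ?_⟩
  apply add_right_cancel (b := m * (i + 1) + 1)
  calc c * (i + 1) * (i + 1) * (m * (i + d + 1) + 1) + (m * (i + 1) + 1)
      = (c * (i + 1) * (i + d + 1)) * (m * (i + 1) + 1) + 1 := by rw [hd]; ring
    _ = (u + 1) * (m * (i + 1) + 1) + 1 := by rw [hu]
    _ = _ := by ring

theorem inv_gt {m j d c : M} (hd : m = d * c) (hm : 1 ≤ m) :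
    Inv (m * (j + d + 1) + 1) (m * (j + 1) + 1) := by
  have h1 : c * (j + d + 1) * (j + d + 1) * (m * (j + 1) + 1) + 1 =
      (c * (j + d + 1) * (j + 1) + 1) * (m * (j + d + 1) + 1) := by
    rw [hd]; ring
  obtain ⟨u, hu⟩ := exists_succ (one_le_mul' (one_le_mul'
    (one_le_succ (c * (j + d + 1) * (j + 1))) hm) (one_le_succ (j + d)))
  refine ⟨c * (j + d + 1) * (j + d + 1) * m * (j + d + 1), u, ?_⟩
  apply add_right_cancel (b := m * (j + d + 1) + 1)
  calc c * (j + d + 1) * (j + d + 1) * m * (j + d + 1) * (m * (j + 1) + 1) +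
        (m * (j + d + 1) + 1)
      = m * (j + d + 1) * (c * (j + d + 1) * (j + d + 1) * (m * (j + 1) + 1) + 1) + 1 := by ring
    _ = m * (j + d + 1) * ((c * (j + d + 1) * (j + 1) + 1) * (m * (j + d + 1) + 1)) + 1 := by
        rw [h1]
    _ = ((c * (j + d + 1) * (j + 1) + 1) * m * (j + d + 1)) * (m * (j + d + 1) + 1) + 1 := by ring
    _ = (u + 1) * (m * (j + d + 1) + 1) + 1 := by rw [hu]
    _ = _ := by ring

theorem inv_ne {m K : M} (hm : 1 ≤ m) (h : ∀ d : M, 1 ≤ d → d ≤ K → ∃ c, m = d * c) {i j : M}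
    (hi : i < K) (hj : j < K) (hij : i ≠ j) : Inv (m * (i + 1) + 1) (m * (j + 1) + 1) := by
  rcases lt_or_gt_of_ne hij with h1 | h1
  · obtain ⟨d, rfl⟩ := World.exists_add i j h1.le
    have hd : d ≠ 0 := by
      rintro rfl
      rw [add_zero] at h1
      exact lt_irrefl _ h1
    have hd1 : 1 ≤ d := World.one_le_of_pos (lt_of_le_of_ne (World.zero_le' d) (Ne.symm hd))
    obtain ⟨c, hc⟩ := h d hd1 ((le_add_of_nonneg_left (World.zero_le' i)).trans hj.le)
    exact inv_lt hc hm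
  · obtain ⟨d, rfl⟩ := World.exists_add j i h1.le
    have hd : d ≠ 0 := by
      rintro rfl
      rw [add_zero] at h1
      exact lt_irrefl _ h1
    have hd1 : 1 ≤ d := World.one_le_of_pos (lt_of_le_of_ne (World.zero_le' d) (Ne.symm hd))
    obtain ⟨c, hc⟩ := h d hd1 ((le_add_of_nonneg_left (World.zero_le' j)).trans hi.le)
    exact inv_gt hc hm

set_option synthInstance.maxSize 100000 in
theorem main (P : M → Prop) (hP : IP M P) (K : M) :
    ∃ e : M, ∀ i : M, i < K → (Ecd e i ↔ P i) := by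
  obtain ⟨m, hm, h⟩ := exists_mult K
  have key : ∀ k : M, k ≤ K → ∃ n : M, ∀ i : M, i < K →
      ((i < k ∧ P i → ∃ c, n = (m * (i + 1) + 1) * c) ∧
        (k ≤ i ∨ ¬ P i → ∃ v u : M, v * n = u * (m * (i + 1) + 1) + 1)) := by
    refine ind (P := fun k : M => k ≤ K → ∃ n : M, ∀ i : M, i < K →
      ((i < k ∧ P i → ∃ c, n = (m * (i + 1) + 1) * c) ∧
        (k ≤ i ∨ ¬ P i → ∃ v u : M, v * n = u * (m * (i + 1) + 1) + 1))) inferInstance ?_ ?_
    · intro _
      refine ⟨1, fun i _ => ⟨fun h1 => absurd h1.1 (not_lt.2 (World.zero_le' i)), fun _ =>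
        Inv.one _⟩⟩
    · intro k ih hk
      have hkK : k < K := lt_of_lt_of_le (lt_add_of_pos_right k zero_lt_one) hk
      obtain ⟨n, hn⟩ := ih hkK.le
      by_cases hPk : P k
      · refine ⟨n * (m * (k + 1) + 1), fun i hi => ⟨?_, ?_⟩⟩
        · rintro ⟨h1, h2⟩
          rw [World.lt_succ] at h1
          rcases h1.lt_or_eq with h3 | rfl
          · obtain ⟨c, hc⟩ := (hn i hi).1 ⟨h3, h2⟩
            exact ⟨c * (m * (k + 1) + 1), by rw [hc]; ring⟩
          · exact ⟨n, by ring⟩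
        · intro h1
          have hne : i ≠ k := by
            rintro rfl
            rcases h1 with h1 | h1
            · exact absurd h1 (not_le.2 (lt_add_of_pos_right i zero_lt_one))
            · exact h1 hPk
          have h2 : k ≤ i ∨ ¬ P i := by
            rcases h1 with h1 | h1
            · exact Or.inl ((le_of_lt (lt_add_of_pos_right k zero_lt_one)).trans h1)
            · exact Or.inr h1
          exact Inv.mul ((hn i hi).2 h2) (inv_ne hm h hi hkK hne)
      · refine ⟨n, fun i hi => ⟨?_, ?_⟩⟩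
        · rintro ⟨h1, h2⟩
          rw [World.lt_succ] at h1
          rcases h1.lt_or_eq with h3 | rfl
          · exact (hn i hi).1 ⟨h3, h2⟩
          · exact absurd h2 hPk
        · intro h1
          refine (hn i hi).2 ?_
          rcases h1 with h1 | h1
          · exact Or.inl ((le_of_lt (lt_add_of_pos_right k zero_lt_one)).trans h1)
          · exact Or.inr h1
  obtain ⟨n, hn⟩ := key K le_rfl
  refine ⟨pr m n, fun i hi => ⟨?_, ?_⟩⟩
  · rintro ⟨m', n', c, he, hc⟩
    obtain ⟨rfl, rfl⟩ := pr_inj he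
    by_contra hPi
    have h1 : Inv (m * (i + 1) + 1) n := (hn i hi).2 (Or.inr hPi)
    refine h1.not_dvd ?_ ⟨c, hc⟩
    exact lt_add_of_pos_left _ (lt_of_lt_of_le zero_lt_one (one_le_mul' hm (one_le_succ i)))
  · intro hPi
    obtain ⟨c, hc⟩ := (hn i hi).1 ⟨hi, hPi⟩
    exact ⟨m, n, c, rfl, hc⟩

theorem t_CODE : G_CODE := fun _ _ P hP K => main P hP K

end Pool.Agent.Helper41.CS
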