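import Pool.Agent.Helper6.CS.Stmt

/-!
# The statement: the ordered variable word theorem (words without variables) in a structure for second
order arithmetic
-/

namespace Pool.Agent.Helper6.CS

namespace L2Structure

variable (A : L2Structure)

/-- The finite word of length `k` with the letters `g p` is a word over the alphabet of the numbers
less than `a`. -/
def IsWordOver (a k : A.M) (g : A.M → A.M) : Prop := ∀ p, A.lt p k → A.lt (g p) a

/-- `f` is a colouring of the finite words over the alphabet of the numbers less than `a` with colours
less than `l`: `f` belongs to the structure, its values at codes of these words are less than `l`, and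
all codes of a word have the same colour. -/
def IsWordColouring (a l : A.M) (f : A.M → A.M) : Prop :=
  A.InS f ∧ ∀ k g c c', A.IsWordOver a k g → A.Codes c k g → A.Codes c' k g →
    A.lt (f c) l ∧ f c = f c'

/-- `W` is an ordered omega-variable word over the alphabet of the numbers less than `a`: every
variable `x_i` (the number `a + i`) occurs, and for `i < j` ALL occurrences of `x_i` come before all
occurrences of `x_j`. -/
def IsOrderedOmegaWord (a : A.M) (W : A.M → A.M) : Prop :=
  (∀ i, ∃ p, W p = A.add a i) ∧
  ∀ i j p q, A.lt i j → W p = A.add a i → W q = A.add a j → A.lt p q

/-- The ordered variable word theorem `OVW^0` in the structure: for all numbers of colours `l ≥ 1`, all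
alphabets (all sizes `a`) and all colourings `f` of the finite words there are an ordered
omega-variable word `W` and a colour `c` such that `W[v]` has colour `c` for every finite word `v`. -/
def SatOrderedOVW0 : Prop :=
  ∀ l a : A.M, A.lt A.zero l → ∀ f : A.M → A.M, A.IsWordColouring a l f →
    ∃ W : A.M → A.M, A.InS W ∧ A.IsOrderedOmegaWord a W ∧ ∃ c, A.lt c l ∧
      ∀ v k g, A.Codes v k g → A.IsWordOver a k g →
        ∃ d q h, A.IsSubst a W k g q h ∧ A.Codes d q h ∧ f d = c

end L2Structure

end Pool.Agent.Helper6.CS
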