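import Pool.Agent.Helper41.CS.Ord5
import Pool.Agent.Helper41.CS.OStmt
import Pool.Agent.Helper6.CS.Goals2

/-!
# Project CS: the ordered theorem in models of ACA_0
-/

set_option autoImplicit false

namespace Pool.Agent.Helper41.CS

open Pool.Agent.Helper6.CS

set_option synthInstance.maxSize 1000000000

theorem inS_iff {M : Type} (w : World M) (F : M → M) : (L2of M w).InS F ↔ IFn M F := by
  have h : {z : M | ∃ x, z = pr x (F x)} = {m : M | ∃ p : M × M, (Cod.cd p : M) = m ∧ F p.1 = p.2} := by
    ext z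
    constructor
    · rintro ⟨x, rfl⟩
      exact ⟨(x, F x), rfl, rfl⟩
    · rintro ⟨⟨x, y⟩, rfl, h⟩
      simp only at h
      subst h
      exact ⟨x, rfl⟩
  constructor
  · intro h1
    refine ⟨⟨?_⟩⟩
    rw [← h]
    exact h1
  · intro h1
    have h2 := h1.g.mem
    rw [← h] at h2
    exact h2

section

variable {M : Type} [w : World M]

/-- strict codes -/
def Cds (c k : M) (g : M → M) : Prop :=
  ∃ m n, c = pr k (pr m n) ∧ ∀ i, i < k → ((∃ c', n = (m * (pr i (g i) + 1) + 1) * c') ∧
    ∀ v', v' < g i → ¬ ∃ c', n = (m * (pr i v' + 1) + 1) * c')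

theorem cds_iff (c k : M) (g : M → M) : (L2of M w).Codes c k g ↔ Cds c k g := Iff.rfl

instance : IP M fun p : Wd M × M => Cds p.2 p.1.len p.1.get := by
  unfold Cds
  infer_instance

theorem over_inst_ordered {a : M} {W : M → M} [IFn M W] (hW : OOW a W) {v : Wd M} (hv : Over a v) :
    Over a (inst a W v) := by
  intro p hp
  have h1 : p < fo a W v.len := by
    unfold inst at hp
    rwa [Wd.len_of] at hp
  unfold inst
  rw [Wd.get_of_lt _ _ h1]
  split_ifs with h2
  · exact h2
  · obtain ⟨i, hi⟩ := World.exists_add _ _ (not_lt.1 h2)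
    rw [hi, add_tsub_cancel_left]
    refine hv i ?_
    by_contra h3
    have h4 : W (fo a W v.len) = a + v.len :=
      lst_spec (P := fun p : M => W p = a + v.len) (hW.1 _)
    rcases (not_lt.1 h3).lt_or_eq with h5 | h5
    · have := hW.2 _ _ _ _ h5 h4 hi
      exact absurd this (not_lt.2 h1.le)
    · rw [← h5] at hi
      exact absurd (lst_le (P := fun p : M => W p = a + v.len) hi) (not_le.2 h1)

end

/-- The core of the translation, with all variables in `M`. -/
theorem ordered_core (hCS : G_CS1) (hREC : G_REC) (hL1F : G_L1F) (hFA : G_FA) (M : Type)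
    (w : World M) (l a : M) (f : M → M) (hfS : (L2of M w).InS f)
    (hf2 : ∀ (k : M) (g : M → M) (c c' : M), (∀ p, p < k → g p < a) → Cds c k g → Cds c' k g →
      f c < l ∧ f c = f c') :
    ∃ W : M → M, (L2of M w).InS W ∧ OOW a W ∧ ∃ c, c < l ∧
      ∀ (v k : M) (g : M → M), (L2of M w).Codes v k g → (∀ p, p < k → g p < a) →
        ∃ (d q : M) (h : M → M), (L2of M w).IsSubst a W k g q h ∧ (L2of M w).Codes d q h ∧
          f d = c := by
  have hfi : IFn M f := (inS_iff w f).1 hfS
  obtain ⟨hFA1, hFA2⟩ := hFA M w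
  have hex : ∀ z : Wd M, ∃ c : M, Cds c z.len z.get := fun z => hFA1 z.len z.get z.int
  let cc : Wd M → M := fun z => lst fun c => Cds c z.len z.get
  have hcc : ∀ z : Wd M, Cds (cc z) z.len z.get := by
    intro z
    have h1 : IP M fun c : M => Cds c z.len z.get :=
      IP.comp (P := fun p : Wd M × M => Cds p.2 p.1.len p.1.get) inferInstance
        (f := fun c : M => (z, c)) inferInstance
    exact lst_spec (P := fun c : M => Cds c z.len z.get) (hex z)
  have hcci : IFn M cc := by
    have h1 : IP M fun p : Wd M × M => Cds p.2 p.1.len p.1.get := inferInstance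
    exact IFn.lst (P := fun (z : Wd M) (c : M) => Cds c z.len z.get)
  have hcol : ∀ z : Wd M, Over a z → f (cc z) < l := fun z hz =>
    (hf2 z.len z.get _ _ hz (hcc z) (hcc z)).1
  obtain ⟨W, hW, hO, c, hc, h3⟩ := ordered_world hCS hREC hL1F a l (fun z => f (cc z)) hcol
  refine ⟨W, (inS_iff w W).2 hW, hO, c, hc, fun v k g hv hg => ?_⟩
  obtain ⟨v', hl', hv'⟩ := hFA2 v k g hv
  have hov : Over a v' := by
    intro i hi
    rw [hl'] at hi
    rw [hv' i hi]
    exact hg i hi
  have hlen : (inst a W v').len = fo a W k := by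
    unfold inst
    rw [Wd.len_of, hl']
  have hget : ∀ p, p < fo a W k →
      (inst a W v').get p = if W p < a then W p else v'.get (W p - a) := by
    intro p hp
    unfold inst
    rw [Wd.get_of_lt _ _ (by rwa [hl'])]
  have hq : W (fo a W k) = a + k := lst_spec (P := fun p : M => W p = a + k) (hO.1 _)
  have hq2 : ∀ p, W p = a + k → fo a W k ≤ p := fun p hp =>
    lst_le (P := fun p : M => W p = a + k) hp
  refine ⟨cc (inst a W v'), fo a W k, (inst a W v').get, ⟨hq, ?_, ?_, ?_⟩, ?_, h3 v' hov⟩
  · intro (p : M) (hp : p < fo a W k) (hp2 : W p = a + k)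
    exact absurd (hq2 p hp2) (not_le.2 hp)
  · intro (p : M) (hp : p < fo a W k) (hp2 : W p < a)
    rw [hget p hp]
    exact if_pos hp2
  · intro (p : M) (i : M) (hp : p < fo a W k) (hp3 : W p = a + i)
    have hi : i < k := by
      by_contra h4
      rcases (not_lt.1 h4).lt_or_eq with h5 | h5
      · exact absurd (hO.2 _ _ _ _ h5 hq hp3) (not_lt.2 (le_of_lt hp))
      · rw [← h5] at hp3
        exact absurd (hq2 p hp3) (not_le.2 hp)
    rw [hget p hp, if_neg (by rw [hp3]; exact not_lt.2 (le_add_of_nonneg_right (World.zero_le' _))),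
      hp3, add_tsub_cancel_left, hv' i hi]
  · have := hcc (inst a W v')
    rw [hlen] at this
    exact this

/-- **The ordered theorem in the structure of a world.** -/
theorem ordered_struct (hCS : G_CS1) (hREC : G_REC) (hL1F : G_L1F) (hFA : G_FA) (M : Type)
    (w : World M) : (L2of M w).SatOrderedOVW0 := fun l a _ f hf =>
  ordered_core hCS hREC hL1F hFA M w l a f hf.1 hf.2

/-- **The ordered theorem in all models of ACA_0.** -/
theorem ordered_models (hA : G_ALGA) (hB : G_ALGB) (hC : G_ALGC) (hCS : G_CS1) (hREC : G_REC)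
    (hL1F : G_L1F) (hFA : G_FA) (A : L2Structure) (h : IsModelACA0 A) : A.SatOrderedOVW0 := by
  obtain ⟨w, hw⟩ := hC hA hB A h
  rw [← hw]
  exact ordered_struct hCS hREC hL1F hFA A.M w

end Pool.Agent.Helper41.CS
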