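import Pool.Agent.Helper41.CS.Avoid
import Pool.Agent.Helper6.CS.Goals1

/-!
# Project CS: Lemma 4' (ordered Carlson-Simpson step)
-/

set_option autoImplicit false

namespace Pool.Agent.Helper41.CS

open Pool.Agent.Helper6.CS

set_option synthInstance.maxSize 100000

variable {M : Type} [World M]

/-- The words `y` which continue `s U(a)` for all letters `a`. -/
def Ds (b : M) (D : Wd M → Prop) (s U y : Wd M) : Prop :=
  ∀ a, a < b → D (s ++ Wd.sub b a U ++ y)

/-- `U` is a word over `b + 1` which starts with the variable `b`. -/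
def Vx (b : M) (U : Wd M) : Prop := Over (b + 1) U ∧ 1 ≤ U.len ∧ U.get 0 = b

instance : IP M fun p : M × Wd M => Vx p.1 p.2 := by unfold Vx; infer_instance

instance ipDs (D : Wd M → Prop) [IP M D] :
    IP M fun p : (M × Wd M × Wd M) × Wd M => Ds p.1.1 D p.1.2.1 p.1.2.2 p.2 := by
  unfold Ds; infer_instance

/-- The words of `Cl(0)`. -/
theorem cl0 (b : M) (D : Wd M → Prop) [IP M D] (p : M)
    (hp : ∀ q : M, ∃ y : Wd M, Over b y ∧ ∀ g : Wd M, Over b g → g.len ≤ q →
      ∃ t : Wd M, Over b t ∧ t.len ≤ p ∧ D (t ++ g ++ y))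
    (hno : ∀ s U : Wd M, Over b s → D s → Vx b U → ¬ PS b (Ds b D s U)) (L : M) :
    ∃ y : Wd M, Over b y ∧
      (∀ g : Wd M, Over b g → g.len ≤ L → ∃ t : Wd M, Over b t ∧ t.len ≤ p ∧ D (t ++ g ++ y)) ∧
      ∀ s U : Wd M, Over b s → s.len ≤ L → D s → Vx b U → U.len ≤ L → ¬ Ds b D s U y := by
  obtain ⟨B1, hB1⟩ := bdd_words b L
  obtain ⟨B2, hB2⟩ := bdd_words (b + 1) L
  let E : M → Wd M → Prop := fun i y => ∃ s U : Wd M, pr (Cod.cd s) (Cod.cd U) = i ∧
    Over b s ∧ D s ∧ Vx b U ∧ Ds b D s U y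
  have hE : IP M fun p : M × Wd M => E p.1 p.2 := by
    have h1 : IP M fun q : ((M × Wd M) × Wd M) × Wd M => Ds b D q.1.2 q.2 q.1.1.2 :=
      IP.comp (P := fun p : (M × Wd M × Wd M) × Wd M => Ds p.1.1 D p.1.2.1 p.1.2.2 p.2)
        (ipDs D) (f := fun q : ((M × Wd M) × Wd M) × Wd M => ((b, q.1.2, q.2), q.1.1.2))
        inferInstance
    change IP M fun p : M × Wd M => ∃ s U : Wd M, pr (Cod.cd s) (Cod.cd U) = p.1 ∧
      Over b s ∧ D s ∧ Vx b U ∧ Ds b D s U p.2
    infer_instance
  obtain ⟨q, hq⟩ := avoid b E (pr B1 B2) (by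
    intro i _
    by_cases h : ∃ s U : Wd M, pr (Cod.cd s) (Cod.cd U) = i ∧ Over b s ∧ D s ∧ Vx b U
    · obtain ⟨s, U, rfl, hs, hD, hU⟩ := h
      intro h1
      refine hno s U hs hD hU ?_
      obtain ⟨p', h1⟩ := h1
      refine ⟨p', fun q => ?_⟩
      obtain ⟨y, hy, h1⟩ := h1 q
      refine ⟨y, hy, fun g hg hl => ?_⟩
      obtain ⟨t, ht, hl', s', U', h2, h3, h4, h5, h6⟩ := h1 g hg hl
      obtain ⟨h7, h8⟩ := pr_inj h2
      rw [Cod.cd_eq] at h7 h8
      subst h7 h8
      exact ⟨t, ht, hl', h6⟩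
    · rintro ⟨p', h1⟩
      obtain ⟨y, hy, h1⟩ := h1 0
      obtain ⟨t, ht, hl', s', U', h2, h3, h4, h5, h6⟩ := h1 (Wd.nil M) (over_nil b)
        (by rw [len_nil])
      exact h ⟨s', U', h2, h3, h4, h5⟩) 0
  obtain ⟨y, hy, h1⟩ := hp (L + q)
  obtain ⟨g, hg, hl, h2⟩ := hq y hy
  refine ⟨g ++ y, over_app hg hy, fun g' hg' hl' => ?_, fun s U hs hls hD hU hlU h3 => ?_⟩
  · obtain ⟨t, ht, hlt, h3⟩ := h1 (g' ++ g) (over_app hg' hg) (by rw [len_app]; gcongr)
    refine ⟨t, ht, hlt, ?_⟩
    rwa [← app_assoc t, app_assoc (t ++ g')] at h3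
  · refine h2 (pr (Cod.cd s) (Cod.cd U)) ?_ (Wd.nil M) (over_nil b) (by rw [len_nil])
      ⟨s, U, rfl, hs, hD, hU, ?_⟩
    · exact pr_lt (add_lt_add (hB1 s hs hls) (hB2 U hU.1 hlU))
    · rwa [nil_app]

/-- Internal functions of words are coded on bounded words. -/
theorem code_fun (H : Wd M → Wd M) [IFn M H] (b m : M) :
    ∃ h : M, ∀ w : Wd M, Over b w → w.len ≤ m → apw h w = H w := by
  obtain ⟨B, hB⟩ := bdd_words b m
  obtain ⟨h, hh⟩ := ev_exists (fun j : M => (Cod.cd (H (dec j)) : M)) B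
  refine ⟨h, fun w hw hl => ?_⟩
  unfold apw
  rw [hh _ (hB w hw hl), dec_cd, dec_cd]

/-- The word without its first letter. -/
noncomputable def tl (w : Wd M) : Wd M := Wd.of (w.len - 1) fun i => w.get (i + 1)

instance : IFn M fun w : Wd M => tl w := by unfold tl; infer_instance

theorem eq_sg_tl {w : Wd M} (h : 0 < w.len) : w = Wd.sg (w.get 0) ++ tl w := by
  obtain ⟨k, hk⟩ := exists_succ (World.one_le_of_pos h)
  have h1 : (tl w).len = k := by
    unfold tl
    rw [Wd.len_of, hk, add_tsub_cancel_right]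
  refine Wd.ext' (by rw [len_app, len_sg, h1, hk, add_comm]) fun i hi => ?_
  rcases lt_or_ge i 1 with h2 | h2
  · have h0 : i = 0 := le_antisymm (by
      have : i < 0 + 1 := by rwa [zero_add]
      exact (World.lt_succ _ _).1 this) (World.zero_le' i)
    subst h0
    rw [get_app_lt (by rw [len_sg]; exact zero_lt_one), get_sg]
  · obtain ⟨j, rfl⟩ := World.exists_add _ _ h2
    have := get_app_ge (Wd.sg (w.get 0)) (tl w) j
    rw [len_sg] at this
    rw [this]
    unfold tl
    have h3 : j < w.len - 1 := by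
      rw [hk, add_tsub_cancel_right]
      rw [hk, add_comm] at hi
      exact lt_of_add_lt_add_right hi
    rw [Wd.get_of_lt _ _ h3, add_comm]

theorem tl_sg_app (a : M) (w : Wd M) : tl (Wd.sg a ++ w) = w := by
  have h1 : (Wd.sg a ++ w).len - 1 = w.len := by
    rw [len_app, len_sg, add_tsub_cancel_left]
  refine Wd.ext' (by unfold tl; rw [Wd.len_of, h1]) fun i hi => ?_
  unfold tl at hi ⊢
  rw [Wd.len_of] at hi
  rw [Wd.get_of_lt _ _ hi]
  have := get_app_ge (Wd.sg a) w i
  rw [len_sg] at this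
  rw [add_comm, this]

theorem get0_sg_app (a : M) (w : Wd M) : (Wd.sg a ++ w).get 0 = a := by
  rw [get_app_lt (by rw [len_sg]; exact zero_lt_one), get_sg]

theorem len_pos_sg_app (a : M) (w : Wd M) : 0 < (Wd.sg a ++ w).len := by
  rw [len_app, len_sg]
  exact lt_of_lt_of_le zero_lt_one (le_add_of_nonneg_right (World.zero_le' _))

theorem over_tl {b : M} {w : Wd M} (h : Over b w) : Over b (tl w) := by
  rcases lt_or_ge 0 w.len with h1 | h1
  · intro i hi
    have h2 := eq_sg_tl h1
    have h3 := get_app_ge (Wd.sg (w.get 0)) (tl w) i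
    rw [← h2] at h3
    rw [← h3]
    refine h _ ?_
    conv_rhs => rw [h2]
    rw [len_app]
    gcongr
  · rw [eq_nil h1]
    intro i hi
    have h2 : (tl (Wd.nil M)).len = 0 := by
      unfold tl
      rw [Wd.len_of, len_nil]
      exact tsub_eq_zero_of_le (World.zero_le' _)
    rw [h2] at hi
    exact absurd hi (not_lt.2 (World.zero_le' i))

theorem len_tl {w : Wd M} (h : 0 < w.len) : 1 + (tl w).len = w.len := by
  conv_rhs => rw [eq_sg_tl h]
  rw [len_app, len_sg]

/-- The property of `h` in `Cl(m)` for `L`. -/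
def ClO (b : M) (D : Wd M → Prop) (p m L h : M) : Prop :=
  (∀ g : Wd M, Over b g → g.len ≤ L → ∀ w : Wd M, Over b w → w.len ≤ m →
    ∃ t : Wd M, Over b t ∧ t.len ≤ p ∧ D (t ++ g ++ apw h w)) ∧
  (∀ g : Wd M, Over b g → g.len ≤ L → ∀ s t : Wd M, Over b s → Vx b t → s.len + t.len ≤ m →
    ¬ (D (g ++ apw h s) ∧ ∀ a, a < b → D (g ++ apw h (s ++ Wd.sub b a t)))) ∧
  ∀ s U : Wd M, Over b s → s.len ≤ L → D s → Vx b U → U.len ≤ L → ∀ t : Wd M, Over (b + 1) t →
    t.len ≤ m → ¬ ∀ a, a < b → D (s ++ Wd.sub b a U ++ apw h (Wd.sub b a t))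

set_option maxHeartbeats 1600000 in
theorem cl (b : M) (D : Wd M → Prop) [IP M D] (p : M)
    (hp : ∀ q : M, ∃ y : Wd M, Over b y ∧ ∀ g : Wd M, Over b g → g.len ≤ q →
      ∃ t : Wd M, Over b t ∧ t.len ≤ p ∧ D (t ++ g ++ y))
    (hno : ∀ s U : Wd M, Over b s → D s → Vx b U → ¬ PS b (Ds b D s U)) :
    ∀ m L : M, ∃ h : M, ClO b D p m L h := by
  refine ind (P := fun m : M => ∀ L : M, ∃ h : M, ClO b D p m L h) ?_ ?_ ?_
  · unfold ClO
    infer_instance
  · intro L
    obtain ⟨Y, hY, hY1, hY2⟩ := cl0 b D p hp hno L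
    obtain ⟨h, hh⟩ := code_fun (fun _ : Wd M => Y) b (0 : M)
    refine ⟨h, fun g hg hl w hw hlw => ?_, fun g hg hl s t hs ht hlst => ?_,
      fun s U hs hls hD hU hlU t ht hlt h1 => ?_⟩
    · rw [hh w hw hlw]
      exact hY1 g hg hl
    · have h1 : (1 : M) ≤ 0 := ht.2.1.trans ((le_add_of_nonneg_left (World.zero_le' _)).trans hlst)
      exact absurd h1 (not_le.2 zero_lt_one)
    · refine hY2 s U hs hls hD hU hlU fun a ha => ?_
      have h2 := h1 a ha
      rwa [hh _ (over_sub ht ha) (by rw [len_sub]; exact hlt)] at h2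
  · intro m ih L
    obtain ⟨Y, hY, hY1, hY2⟩ := cl0 b D p hp hno L
    obtain ⟨h', hI, hP, hQ⟩ := ih (L + Y.len + 1)
    classical
    let H : Wd M → Wd M := fun w => if w.len ≤ 0 then Y else Y ++ Wd.sg (w.get 0) ++ apw h' (tl w)
    have : IFn M H := by
      change IFn M fun w : Wd M => if w.len ≤ 0 then Y else Y ++ Wd.sg (w.get 0) ++ apw h' (tl w)
      infer_instance
    obtain ⟨h, hh⟩ := code_fun H b (m + 1)
    have e0 : ∀ w : Wd M, Over b w → w.len ≤ 0 → apw h w = Y := by
      intro w hw hl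
      rw [hh w hw (hl.trans (World.zero_le' _))]
      exact if_pos hl
    have e1 : ∀ (a : M) (w : Wd M), a < b → Over b w → w.len ≤ m →
        apw h (Wd.sg a ++ w) = Y ++ Wd.sg a ++ apw h' w := by
      intro a w ha hw hl
      rw [hh _ (over_app (over_sg ha) hw) (by rw [len_app, len_sg, add_comm]; gcongr)]
      change (if (Wd.sg a ++ w).len ≤ 0 then Y else Y ++ Wd.sg ((Wd.sg a ++ w).get 0) ++
        apw h' (tl (Wd.sg a ++ w))) = _
      rw [if_neg (not_le.2 (len_pos_sg_app a w)), get0_sg_app, tl_sg_app]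
    refine ⟨h, fun g hg hl w hw hlw => ?_, fun g hg hl s t hs ht hlst hD => ?_,
      fun s U hs hls hD hU hlU t ht hlt h1 => ?_⟩
    · rcases lt_or_ge 0 w.len with h1 | h1
      · have h2 := eq_sg_tl h1
        have h3 : (tl w).len ≤ m := by
          have := len_tl h1
          rw [← this, add_comm] at hlw
          exact le_of_add_le_add_right hlw
        have ha : w.get 0 < b := hw 0 h1
        obtain ⟨t, ht, hlt, h4⟩ := hI (g ++ Y ++ Wd.sg (w.get 0))
          (over_app (over_app hg hY) (over_sg ha))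
          (by rw [len_app, len_app, len_sg]; gcongr) (tl w) (over_tl hw) h3
        refine ⟨t, ht, hlt, ?_⟩
        rw [h2, e1 _ _ ha (over_tl hw) h3]
        simpa only [app_assoc] using h4
      · rw [e0 w hw h1]
        exact hY1 g hg hl
    · obtain ⟨hD1, hD2⟩ := hD
      rcases lt_or_ge 0 s.len with h1 | h1
      · have h2 := eq_sg_tl h1
        have ha : s.get 0 < b := hs 0 h1
        have h3 : (tl s).len + t.len ≤ m := by
          have := len_tl h1
          rw [← this, add_comm 1, add_right_comm] at hlst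
          exact le_of_add_le_add_right hlst
        have h4 : (tl s).len ≤ m := (le_add_of_nonneg_right (World.zero_le' _)).trans h3
        refine hP (g ++ Y ++ Wd.sg (s.get 0)) (over_app (over_app hg hY) (over_sg ha))
          (by rw [len_app, len_app, len_sg]; gcongr) (tl s) t (over_tl hs) ht h3 ⟨?_, ?_⟩
        · rw [h2, e1 _ _ ha (over_tl hs) h4] at hD1
          simpa only [app_assoc] using hD1
        · intro a' ha'
          have h5 := hD2 a' ha'
          rw [h2, app_assoc, e1 _ _ ha (over_app (over_tl hs) (over_sub ht.1 ha'))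
            (by rw [len_app, len_sub]; exact h3)] at h5
          simpa only [app_assoc] using h5
      · rw [eq_nil h1] at hD1 hD2 hlst
        rw [e0 _ (over_nil b) (by rw [len_nil])] at hD1
        have ht0 : 0 < t.len := lt_of_lt_of_le zero_lt_one ht.2.1
        have h2 := eq_sg_tl ht0
        rw [ht.2.2] at h2
        have h3 : (tl t).len ≤ m := by
          have := len_tl ht0
          rw [← this, len_nil, zero_add, add_comm] at hlst
          exact le_of_add_le_add_right hlst
        have hVx : Vx b (Wd.sg b) := by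
          refine ⟨over_sg ((World.lt_succ _ _).2 le_rfl), by rw [len_sg], get_sg b⟩
        refine hQ (g ++ Y) (Wd.sg b) (over_app hg hY)
          (by rw [len_app]
              exact le_trans (by gcongr) (le_add_of_nonneg_right zero_le_one)) hD1 hVx
          (by rw [len_sg]; exact le_add_of_nonneg_left (World.zero_le' _)) (tl t)
          (over_tl ht.1) h3 fun a ha => ?_
        have h5 := hD2 a ha
        rw [nil_app, h2, sub_app, sub_sg_self, e1 _ _ ha (over_sub (over_tl ht.1) ha)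
          (by rw [len_sub]; exact h3)] at h5
        rw [sub_sg_self]
        simpa only [app_assoc] using h5
    · rcases lt_or_ge 0 t.len with h2 | h2
      · have h3 := eq_sg_tl h2
        have h4 : (tl t).len ≤ m := by
          have := len_tl h2
          rw [← this, add_comm] at hlt
          exact le_of_add_le_add_right hlt
        have hU' : Vx b (U ++ Y ++ Wd.sg (t.get 0)) := by
          refine ⟨over_app (over_app hU.1 (Over.mono hY (le_add_of_nonneg_right zero_le_one)))
            (over_sg (ht 0 h2)), ?_, ?_⟩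
          · rw [len_app, len_app, add_assoc]
            exact hU.2.1.trans (le_add_of_nonneg_right (World.zero_le' _))
          · rw [app_assoc, get_app_lt (lt_of_lt_of_le zero_lt_one hU.2.1)]
            exact hU.2.2
        refine hQ s (U ++ Y ++ Wd.sg (t.get 0)) hs
          (hls.trans (by rw [add_assoc]; exact le_add_of_nonneg_right (World.zero_le' _))) hD hU'
          (by rw [len_app, len_app, len_sg]; gcongr) (tl t) (over_tl ht) h4 fun a ha => ?_
        have h5 := h1 a ha
        have h6 : ∃ e, e < b ∧ Wd.sub b a (Wd.sg (t.get 0)) = Wd.sg e := by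
          rcases eq_or_ne (t.get 0) b with h7 | h7
          · rw [h7]
            exact ⟨a, ha, sub_sg_self b a⟩
          · have h8 : t.get 0 < b := lt_of_le_of_ne ((World.lt_succ _ _).1 (ht 0 h2)) h7
            exact ⟨t.get 0, h8, sub_eq_self (over_sg h8)⟩
        obtain ⟨e, he, h7⟩ := h6
        rw [h3, sub_app, h7, e1 _ _ he (over_sub (over_tl ht) ha) (by rw [len_sub]; exact h4)] at h5
        rw [sub_app, sub_app, h7, sub_eq_self hY]
        simpa only [app_assoc] using h5
      · refine hY2 s U hs hls hD hU hlU fun a ha => ?_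
        have h3 := h1 a ha
        rwa [e0 _ (over_sub ht ha) (by rw [len_sub]; exact h2)] at h3

/-- **Lemma 4'.** -/
theorem ord4 (hCS : G_CS1) (b : M) (D : Wd M → Prop) [IP M D] (hPS : PS b D) :
    ∃ s U : Wd M, Over b s ∧ D s ∧ Vx b U ∧ PS b (Ds b D s U) := by
  by_contra hne
  push Not at hne
  obtain ⟨p, hp⟩ := hPS
  obtain ⟨r, hr⟩ := bdd_words b p
  obtain ⟨N, hN⟩ := hCS M b r
  obtain ⟨h, hI, hP, -⟩ := cl b D p hp hne N p
  let T : Wd M → Wd M := fun w => pick M fun t : Wd M => Over b t ∧ t.len ≤ p ∧ D (t ++ apw h w)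
  have hT : IFn M T := by
    change IFn M fun w : Wd M => pick M fun t : Wd M => Over b t ∧ t.len ≤ p ∧ D (t ++ apw h w)
    infer_instance
  have hTs : ∀ w : Wd M, Over b w → w.len ≤ N →
      Over b (T w) ∧ (T w).len ≤ p ∧ D (T w ++ apw h w) := by
    intro w hw hl
    have h1 : IP M fun t : Wd M => Over b t ∧ t.len ≤ p ∧ D (t ++ apw h w) := inferInstance
    refine pick_spec (P := fun t : Wd M => Over b t ∧ t.len ≤ p ∧ D (t ++ apw h w)) ?_
    obtain ⟨t, ht, hl', h2⟩ := hI (Wd.nil M) (over_nil b) (by rw [len_nil]; exact World.zero_le' _)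
      w hw hl
    rw [app_nil] at h2
    exact ⟨t, ht, hl', h2⟩
  obtain ⟨s, t, hs, ht, hst, hc⟩ := hN (fun w => Cod.cd (T w)) inferInstance
    (fun w hw hl => hr _ (hTs w hw hl).1 (hTs w hw hl).2.1)
  have hVx : Vx b (Wd.sg b ++ t) := by
    refine ⟨over_app (over_sg ((World.lt_succ _ _).2 le_rfl)) ht, ?_, get0_sg_app b t⟩
    rw [len_app, len_sg]
    exact le_add_of_nonneg_right (World.zero_le' _)
  have hsl : s.len ≤ N := (le_add_of_nonneg_right (World.zero_le' _)).trans hst
  refine hP (T s) (hTs s hs hsl).1 (hTs s hs hsl).2.1 s (Wd.sg b ++ t) hs hVx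
    (by rw [len_app, len_sg, add_comm 1]; exact hst) ⟨(hTs s hs hsl).2.2, fun a ha => ?_⟩
  have e1 : s ++ Wd.sub b a (Wd.sg b ++ t) = s ++ Wd.sg a ++ Wd.sub b a t := by
    rw [sub_app, sub_sg_self, app_assoc]
  rw [e1]
  have e2 : T (s ++ Wd.sg a ++ Wd.sub b a t) = T s := by
    have := hc a ha
    rwa [Cod.cd_eq] at this
  rw [← e2]
  refine (hTs _ ?_ ?_).2.2
  · exact over_app (over_app hs (over_sg ha)) (over_sub ht ha)
  · rw [len_app, len_app, len_sg, len_sub, add_assoc, add_comm 1]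
    exact hst

end Pool.Agent.Helper41.CS
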