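import Pool.Agent.Helper41.CS.Ord4

/-!
# Project CS: the ordered omega-variable word (from Lemma 4')
-/

set_option autoImplicit false

namespace Pool.Agent.Helper41.CS

open Pool.Agent.Helper6.CS

set_option synthInstance.maxSize 1000000000

variable {M : Type} [World M]

/-! ### The limit word -/

/-- `W` is an ordered omega-variable word over `{0, .., a - 1}`: every variable `x_i` (the letter
`a + i`) occurs, and all occurrences of `x_i` come before all occurrences of `x_j` for `i < j`. -/
def OOW (a : M) (W : M → M) : Prop :=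
  (∀ i : M, ∃ p : M, W p = a + i) ∧
    ∀ i j p q : M, i < j → W p = a + i → W q = a + j → p < q

section limit

variable {a : M} {F S U : M → Wd M} [IFn M F] [IFn M S] [IFn M U]

theorem pos_add_one (p : M) : p < p + 1 := (World.lt_succ _ _).2 le_rfl

theorem get_isub {a : M} {w v : Wd M} {p : M} (hp : p < w.len) :
    (isub a w v).get p = if w.get p < a then w.get p else v.get (w.get p - a) := by
  unfold isub
  rw [Wd.get_of_lt _ _ hp]

theorem len_isub (a : M) (w v : Wd M) : (isub a w v).len = w.len := by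
  unfold isub
  rw [Wd.len_of]

variable (h0 : F 0 = Wd.nil M) (hS : ∀ j, Over a (S j)) (hU : ∀ j, Vx a (U j))
  (hF : ∀ j, F (j + 1) = F j ++ S j ++ Wd.sub a (a + j) (U j))

include hF in
theorem len_F_succ (j : M) : (F (j + 1)).len = (F j).len + (S j).len + (U j).len := by
  rw [hF, len_app, len_app, len_sub]

include hU hF in
theorem le_len_F (j : M) : j ≤ (F j).len := by
  revert j
  refine ind inferInstance (World.zero_le' _) ?_
  intro j ih
  rw [len_F_succ hF]
  have h1 : j ≤ (F j).len + (S j).len := ih.trans (le_add_of_nonneg_right (World.zero_le' _))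
  exact add_le_add h1 (hU j).2.1

include hF in
theorem get_F_add (j p : M) (hp : p < (F j).len) (k : M) :
    p < (F (j + k)).len ∧ (F (j + k)).get p = (F j).get p := by
  revert k
  refine ind inferInstance ?_ ?_
  · rw [add_zero]
    exact ⟨hp, rfl⟩
  · rintro k ⟨h1, h2⟩
    rw [← add_assoc]
    constructor
    · rw [len_F_succ hF, add_assoc]
      exact lt_of_lt_of_le h1 (le_add_of_nonneg_right (World.zero_le' _))
    · rw [hF, app_assoc, get_app_lt h1, h2]

/-- The limit word. -/
noncomputable def limW (F : M → Wd M) (p : M) : M := (F (p + 1)).get p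

instance : IFn M (limW F) := by
  change IFn M fun p : M => (F (p + 1)).get p
  infer_instance

include hU hF in
theorem limW_eq {j p : M} (hp : p < (F j).len) : limW F p = (F j).get p := by
  have h1 : p < (F (p + 1)).len := lt_of_lt_of_le (pos_add_one p) (le_len_F hU hF (p + 1))
  have h2 := (get_F_add hF (p + 1) p h1 j).2
  have h3 := (get_F_add hF j p hp (p + 1)).2
  unfold limW
  rw [← h2, ← h3, add_comm]

include hF in
theorem len_F_mono {i j : M} (h : i ≤ j) : (F i).len ≤ (F j).len := by
  obtain ⟨k, rfl⟩ := World.exists_add _ _ h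
  revert k
  refine ind ?_ ?_ ?_
  · have h1 : IP M fun k : M => (F i).len ≤ (F (i + k)).len := inferInstance
    exact IP.imp (P := fun k : M => i ≤ i + k) (hQ := h1)
  · intro _
    rw [add_zero]
  · intro k ih _
    have h1 := ih (le_add_of_nonneg_right (World.zero_le' _))
    rw [← add_assoc, len_F_succ hF, add_assoc]
    exact h1.trans (le_add_of_nonneg_right (World.zero_le' _))

include h0 hU hF in
theorem exists_block (p : M) : ∃ j : M, (F j).len ≤ p ∧ p < (F (j + 1)).len := by
  have h1 : p < (F (p + 1)).len := lt_of_lt_of_le (pos_add_one p) (le_len_F hU hF (p + 1))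
  obtain ⟨k, hk, hk2⟩ := exists_least (P := fun k : M => p < (F k).len) inferInstance ⟨_, h1⟩
  have hk0 : k ≠ 0 := by
    rintro rfl
    rw [h0, len_nil] at hk
    exact absurd hk (not_lt.2 (World.zero_le' _))
  obtain ⟨j, rfl⟩ := exists_succ (World.one_le_of_pos (lt_of_le_of_ne (World.zero_le' _)
    (Ne.symm hk0)))
  refine ⟨j, ?_, hk⟩
  by_contra h
  have := hk2 j (not_le.1 h)
  exact absurd this (not_le.2 (pos_add_one j))

include hU hF in
theorem limW_S {j r : M} (hr : r < (S j).len) : limW F ((F j).len + r) = (S j).get r := by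
  have h1 : (F j).len + r < (F (j + 1)).len := by
    rw [len_F_succ hF, add_assoc]
    exact add_lt_add_right (lt_of_lt_of_le hr (le_add_of_nonneg_right (World.zero_le' _))) _
  rw [limW_eq hU hF h1, hF, app_assoc, get_app_ge, get_app_lt hr]

open Classical in
include hU hF in
theorem limW_U {j r : M} (hr : r < (U j).len) : limW F ((F j).len + (S j).len + r) =
    if (U j).get r = a then a + j else (U j).get r := by
  have h1 : (F j).len + (S j).len + r < (F (j + 1)).len := by
    rw [len_F_succ hF]
    exact add_lt_add_right hr _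
  rw [limW_eq hU hF h1, hF, ← len_app, get_app_ge, get_sub hr]

include h0 hS hU hF in
/-- A position of the variable `x_i` is in the block of `U i`. -/
theorem pos_var {p i : M} (h : limW F p = a + i) :
    (F i).len + (S i).len ≤ p ∧ p < (F (i + 1)).len := by
  obtain ⟨j, h1, h2⟩ := exists_block h0 hU hF p
  obtain ⟨r, rfl⟩ := World.exists_add _ _ h1
  rcases lt_or_ge r (S j).len with h3 | h3
  · rw [limW_S hU hF h3] at h
    have h4 := hS j r h3
    rw [h] at h4
    exact absurd h4 (not_lt.2 (le_add_of_nonneg_right (World.zero_le' _)))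
  · obtain ⟨r', rfl⟩ := World.exists_add _ _ h3
    have h4 : r' < (U j).len := by
      rw [len_F_succ hF, ← add_assoc] at h2
      exact lt_of_add_lt_add_left h2
    rw [← add_assoc, limW_U hU hF h4] at h
    have h5 : i = j := by
      split_ifs at h with h6
      · exact (add_left_cancel h).symm
      · exfalso
        have h7 : (U j).get r' < a :=
          lt_of_le_of_ne ((World.lt_succ _ _).1 ((hU j).1 r' h4)) h6
        rw [h] at h7
        exact absurd h7 (not_lt.2 (le_add_of_nonneg_right (World.zero_le' _)))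
    subst h5
    refine ⟨?_, h2⟩
    rw [← add_assoc]
    exact le_add_of_nonneg_right (World.zero_le' _)

include hU hF in
theorem var_pos (j : M) : limW F ((F j).len + (S j).len) = a + j := by
  have h1 : (0 : M) < (U j).len := lt_of_lt_of_le zero_lt_one (hU j).2.1
  have := limW_U hU hF h1
  rwa [add_zero, if_pos (hU j).2.2] at this

include h0 hS hU hF in
theorem limW_oow : OOW a (limW F) := by
  refine ⟨fun i => ⟨_, var_pos hU hF i⟩, fun i j p q hij hp hq => ?_⟩
  have h1 := (pos_var h0 hS hU hF hp).2
  have h2 := (pos_var h0 hS hU hF hq).1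
  refine lt_of_lt_of_le h1 (le_trans (len_F_mono hF (World.add_one_le hij)) ?_)
  exact (le_add_of_nonneg_right (World.zero_le' _)).trans h2

include h0 hS hU hF in
theorem fo_limW (j : M) : fo a (limW F) j = (F j).len + (S j).len := by
  have h1 : IP M fun p : M => limW F p = a + j := inferInstance
  refine le_antisymm (lst_le (P := fun p : M => limW F p = a + j) (var_pos hU hF j)) ?_
  exact (pos_var h0 hS hU hF (lst_spec (P := fun p : M => limW F p = a + j)
    ⟨_, var_pos hU hF j⟩)).1

include h0 hS hU hF in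
theorem inst_limW (v : Wd M) : inst a (limW F) v = isub a (F v.len) v ++ S v.len := by
  have h1 : (inst a (limW F) v).len = (F v.len).len + (S v.len).len := by
    unfold inst
    rw [Wd.len_of, fo_limW h0 hS hU hF]
  refine Wd.ext' (by rw [h1, len_app, len_isub]) fun p hp => ?_
  have hp' := hp
  rw [h1] at hp
  have h2 : (inst a (limW F) v).get p =
      if limW F p < a then limW F p else v.get (limW F p - a) := by
    unfold inst at hp' ⊢
    rw [Wd.len_of] at hp'
    rw [Wd.get_of_lt _ _ hp']
  rw [h2]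
  rcases lt_or_ge p (F v.len).len with h3 | h3
  · rw [get_app_lt (by rwa [len_isub]), get_isub h3, limW_eq hU hF h3]
  · obtain ⟨r, rfl⟩ := World.exists_add _ _ h3
    have h4 : r < (S v.len).len := lt_of_add_lt_add_left hp
    have h5 := get_app_ge (isub a (F v.len) v) (S v.len) r
    rw [len_isub] at h5
    rw [h5, limW_S hU hF h4, if_pos (hS _ r h4)]

end limit

/-! ### The construction -/

/-- `D_j` -/
def Dj (a : M) (D : Wd M → Prop) (j : M) (w y : Wd M) : Prop :=
  ∀ v : Wd M, Over a v → v.len = j → D (isub a w v ++ y)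

instance ipDj (a : M) (D : Wd M → Prop) [IP M D] :
    IP M fun p : (M × Wd M) × Wd M => Dj a D p.1.1 p.1.2 p.2 := by
  unfold Dj; infer_instance

instance ipDj' (a : M) (D : Wd M → Prop) [IP M D] (j : M) (w : Wd M) :
    IP M fun y : Wd M => Dj a D j w y := by
  unfold Dj; infer_instance

/-- The choice of `(s_j, U_j)`. -/
def Stp (a : M) (D : Wd M → Prop) (j : M) (w : Wd M) (q : Wd M × Wd M) : Prop :=
  Over a q.1 ∧ Dj a D j w q.1 ∧ Vx a q.2 ∧ PS a fun y => Ds a (Dj a D j w) q.1 q.2 y

instance ipStp (a : M) (D : Wd M → Prop) [IP M D] :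
    IP M fun p : (M × Wd M) × (Wd M × Wd M) => Stp a D p.1.1 p.1.2 p.2 := by
  unfold Stp Ds Dj
  infer_instance

/-- The next word. -/
noncomputable def nxt (a : M) (D : Wd M → Prop) (p : M × Wd M) : Wd M :=
  p.2 ++ (pick M (Stp a D p.1 p.2)).1 ++ Wd.sub a (a + p.1) (pick M (Stp a D p.1 p.2)).2

instance ifnPick (a : M) (D : Wd M → Prop) [IP M D] :
    IFn M fun p : M × Wd M => pick M (Stp a D p.1 p.2) := by
  have h : IP M fun p : (M × Wd M) × (Wd M × Wd M) => Stp a D p.1.1 p.1.2 p.2 := ipStp a D
  exact IFn.pick (P := fun (p : M × Wd M) (q : Wd M × Wd M) => Stp a D p.1 p.2 q)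

instance ifnNxt (a : M) (D : Wd M → Prop) [IP M D] : IFn M (nxt a D) := by
  change IFn M fun p : M × Wd M => p.2 ++ (pick M (Stp a D p.1 p.2)).1 ++
    Wd.sub a (a + p.1) (pick M (Stp a D p.1 p.2)).2
  have h1 : IFn M fun p : M × Wd M => pick M (Stp a D p.1 p.2) := ifnPick a D
  infer_instance

theorem isub_app {a : M} {w s v : Wd M} : isub a (w ++ s) v = isub a w v ++ isub a s v := by
  refine Wd.ext' (by rw [len_isub, len_app, len_app, len_isub, len_isub]) fun p hp => ?_
  rw [len_isub] at hp
  rw [get_isub hp]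
  rcases lt_or_ge p w.len with h | h
  · rw [get_app_lt h, get_app_lt (by rwa [len_isub]), get_isub h]
  · obtain ⟨r, rfl⟩ := World.exists_add _ _ h
    rw [len_app] at hp
    have h1 : r < s.len := lt_of_add_lt_add_left hp
    have h2 := get_app_ge (isub a w v) (isub a s v) r
    rw [len_isub] at h2
    rw [get_app_ge, h2, get_isub h1]

theorem isub_over {a : M} {s v : Wd M} (h : Over a s) : isub a s v = s := by
  refine Wd.ext' (len_isub _ _ _) fun p hp => ?_
  rw [len_isub] at hp
  rw [get_isub hp, if_pos (h p hp)]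

theorem isub_left {a j : M} {w v t : Wd M} (h : Over (a + j) w) (hv : v.len = j) :
    isub a w (v ++ t) = isub a w v := by
  refine Wd.ext' (by rw [len_isub, len_isub]) fun p hp => ?_
  rw [len_isub] at hp
  rw [get_isub hp, get_isub hp]
  split_ifs with h1
  · rfl
  · obtain ⟨c, hc⟩ := World.exists_add _ _ (not_lt.1 h1)
    have h2 : c < j := by
      have := h p hp
      rw [hc] at this
      exact lt_of_add_lt_add_left this
    rw [hc, add_tsub_cancel_left, get_app_lt (by rwa [hv])]

theorem isub_var {a j c : M} {U v : Wd M} (hU : Over (a + 1) U) (hv : v.len = j) :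
    isub a (Wd.sub a (a + j) U) (v ++ Wd.sg c) = Wd.sub a c U := by
  refine Wd.ext' (by rw [len_isub, len_sub, len_sub]) fun p hp => ?_
  rw [len_isub] at hp
  rw [get_isub hp]
  rw [len_sub] at hp
  rw [get_sub hp, get_sub hp]
  by_cases h : U.get p = a
  · rw [if_pos h, if_pos h, if_neg (not_lt.2 (le_add_of_nonneg_right (World.zero_le' _))),
      add_tsub_cancel_left]
    have := get_app_ge v (Wd.sg c) 0
    rwa [add_zero, hv, get_sg] at this
  · rw [if_neg h, if_neg h, if_pos (lt_of_le_of_ne ((World.lt_succ _ _).1 (hU p hp)) h)]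

theorem exists_snoc {v : Wd M} {j : M} (h : v.len = j + 1) :
    ∃ t : Wd M, v = t ++ Wd.sg (v.get j) ∧ t.len = j := Wd.exists_snoc h

/-- The invariant. -/
def Good (a : M) (D : Wd M → Prop) (j : M) (w : Wd M) : Prop :=
  Over (a + j) w ∧ PS a fun y => Dj a D j w y

instance ipGood (a : M) (D : Wd M → Prop) [IP M D] :
    IP M fun p : M × Wd M => Good a D p.1 p.2 := by
  unfold Good Dj
  infer_instance

theorem ps_congr {b : M} {D E : Wd M → Prop} (h : ∀ w, Over b w → D w → E w) (hD : PS b D) :
    PS b E := by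
  obtain ⟨p, hp⟩ := hD
  refine ⟨p, fun q => ?_⟩
  obtain ⟨y, hy, h1⟩ := hp q
  refine ⟨y, hy, fun g hg hl => ?_⟩
  obtain ⟨t, ht, hlt, h2⟩ := h1 g hg hl
  exact ⟨t, ht, hlt, h _ (over_app (over_app ht hg) hy) h2⟩

theorem step (hCS : G_CS1) (a : M) (D : Wd M → Prop) [IP M D] (j : M) (w : Wd M)
    (hG : Good a D j w) : Stp a D j w (pick M (Stp a D j w)) ∧ Good a D (j + 1) (nxt a D (j, w)) := by
  obtain ⟨hw, hPS⟩ := hG
  have h1 : ∃ q : Wd M × Wd M, Stp a D j w q := by
    obtain ⟨s, U, hs, hD, hU, h2⟩ := ord4 hCS a (fun y => Dj a D j w y) hPS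
    exact ⟨(s, U), hs, hD, hU, h2⟩
  have h2 : IP M (Stp a D j w) := by
    have h3 : IP M fun p : (M × Wd M) × (Wd M × Wd M) => Stp a D p.1.1 p.1.2 p.2 := ipStp a D
    exact IP.comp (f := fun q : Wd M × Wd M => ((j, w), q)) h3 inferInstance
  have h3 : Stp a D j w (pick M (Stp a D j w)) := pick_spec h1
  refine ⟨h3, ?_, ?_⟩
  · change Over (a + (j + 1)) (w ++ (pick M (Stp a D j w)).1 ++
      Wd.sub a (a + j) (pick M (Stp a D j w)).2)
    refine over_app (over_app (Over.mono hw ?_) (Over.mono h3.1 ?_)) ?_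
    · rw [← add_assoc]
      exact le_add_of_nonneg_right zero_le_one
    · exact le_add_of_nonneg_right (World.zero_le' _)
    · intro p hp
      rw [len_sub] at hp
      rw [get_sub hp]
      split_ifs with h4
      · rw [← add_assoc]
        exact pos_add_one _
      · refine lt_of_lt_of_le (h3.2.2.1.1 p hp) ?_
        rw [add_comm j 1, ← add_assoc]
        exact le_add_of_nonneg_right (World.zero_le' _)
  · refine ps_congr ?_ h3.2.2.2
    intro y _ hy v hv hl
    obtain ⟨t, h4, h5⟩ := exists_snoc hl
    have h6 : v.get j < a := hv j (by rw [hl]; exact pos_add_one j)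
    have h7 : Over a t := by
      intro p hp
      have := hv p (by rw [hl, ← h5]; exact hp.trans (pos_add_one _))
      rwa [h4, get_app_lt hp] at this
    have h8 := hy (v.get j) h6 t h7 h5
    change D (isub a (w ++ (pick M (Stp a D j w)).1 ++
      Wd.sub a (a + j) (pick M (Stp a D j w)).2) v ++ y)
    have h9 : isub a (w ++ (pick M (Stp a D j w)).1 ++
        Wd.sub a (a + j) (pick M (Stp a D j w)).2) v =
        isub a w t ++ (pick M (Stp a D j w)).1 ++ Wd.sub a (v.get j) (pick M (Stp a D j w)).2 := by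
      conv_lhs => rw [h4]
      rw [isub_app, isub_app, isub_left hw h5, isub_over h3.1, isub_var h3.2.2.1.1 h5]
    rw [h9]
    simpa only [app_assoc] using h8

/-- **The ordered theorem for a PS set.** -/
theorem ordered_PS (hCS : G_CS1) (hREC : G_REC) (a : M) (D : Wd M → Prop) [IP M D]
    (hPS : PS a D) :
    ∃ W : M → M, IFn M W ∧ OOW a W ∧ ∀ v : Wd M, Over a v → D (inst a W v) := by
  obtain ⟨F, hFi, h0, hF⟩ := hREC M (Wd.nil M) (nxt a D) inferInstance
  have hG : ∀ j : M, Good a D j (F j) := by
    refine ind ?_ ?_ ?_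
    · have h1 : IP M fun p : M × Wd M => Good a D p.1 p.2 := ipGood a D
      exact IP.comp (f := fun j : M => (j, F j)) h1 inferInstance
    · rw [h0]
      refine ⟨over_nil _, ps_congr ?_ hPS⟩
      intro w _ hD v _ _
      rwa [isub_over (over_nil a), nil_app]
    · intro j hj
      rw [hF]
      exact (step hCS a D j (F j) hj).2
  let S : M → Wd M := fun j => (pick M (Stp a D j (F j))).1
  let U : M → Wd M := fun j => (pick M (Stp a D j (F j))).2
  have hP : IFn M fun j : M => pick M (Stp a D j (F j)) := by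
    have h1 : IFn M fun p : M × Wd M => pick M (Stp a D p.1 p.2) := ifnPick a D
    exact IFn.comp (f := fun j : M => (j, F j)) h1 inferInstance
  have hSi : IFn M S := by
    change IFn M fun j : M => (pick M (Stp a D j (F j))).1
    infer_instance
  have hUi : IFn M U := by
    change IFn M fun j : M => (pick M (Stp a D j (F j))).2
    infer_instance
  have hst : ∀ j, Stp a D j (F j) (pick M (Stp a D j (F j))) := fun j =>
    (step hCS a D j (F j) (hG j)).1
  have hS : ∀ j, Over a (S j) := fun j => (hst j).1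
  have hU : ∀ j, Vx a (U j) := fun j => (hst j).2.2.1
  have hF' : ∀ j, F (j + 1) = F j ++ S j ++ Wd.sub a (a + j) (U j) := fun j => hF j
  refine ⟨limW F, inferInstance, limW_oow h0 hS hU hF', fun v hv => ?_⟩
  rw [inst_limW h0 hS hU hF']
  exact (hst v.len).2.1 v hv rfl

/-- **The ordered theorem in a world.** -/
theorem ordered_world (hCS : G_CS1) (hREC : G_REC) (hL1F : G_L1F) (a l : M) (f : Wd M → M)
    [IFn M f] (hf : ∀ v, Over a v → f v < l) :
    ∃ W : M → M, IFn M W ∧ OOW a W ∧ ∃ c, c < l ∧ ∀ v : Wd M, Over a v → f (inst a W v) = c := by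
  have h1 : PS a fun w => ∃ k, k < l ∧ (Over a w ∧ f w = k) := by
    refine ⟨0, fun q => ⟨Wd.nil M, over_nil a, fun g hg _ => ⟨Wd.nil M, over_nil a,
      by rw [len_nil], ?_⟩⟩⟩
    rw [nil_app, app_nil]
    exact ⟨f g, hf g hg, hg, rfl⟩
  obtain ⟨c, hc, h2⟩ := hL1F M a (fun k w => Over a w ∧ f w = k) inferInstance l h1
  obtain ⟨W, hW, h3, h4⟩ := ordered_PS hCS hREC a (fun w => Over a w ∧ f w = c) h2
  exact ⟨W, hW, h3, c, hc, fun v hv => (h4 v hv).2⟩

end Pool.Agent.Helper41.CS
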